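import Pool.Agent.L5helper30.LD.Final

/-!
# Three parts: both energies small, few products per integer, or a Λ(2k) set

Every finite set `A` of nonzero integers is the disjoint union of a set `A₀` both of whose energies
of every large order `m` (additive and multiplicative) are at most `|A| ^ (2 m - b)`, a set `A₁` no
integer is the product of `k` elements of which in more than `C |A| ^ ε` ways, and a set `A₂` which
is a `Λ(2k)` set with constant `C |A| ^ ε` (so `|l₁ X₁ + … + l_k X_k|` is at least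
`(|X₁| … |X_k|) / (C |A| ^ ε) ^ k` for all subsets `X_i` of `A₂` and nonzero integers `l_i`).

`A₁` is the part removed by the additive decomposition (`Pool.Agent.Y359.LE`). `A₂` is found by the
multiplicative decomposition, which is new: if the `m`-fold multiplicative energy is large for some
large `m = 2 ^ J`, it grows almost as fast as possible from some `2 ^ j` to `2 ^ (j + 1)`; a level
set of the representation function has large multiplicative energy, and the theorem of Balog,
Szemerédi and Gowers gives a set `P` of positive rationals with `|P P| ≤ R |P|` and a part `D` of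
the set in few dilates of `P`. The inequality for sets with few products shows that `D` is a `Λ(2k)`
set. Remove `D` and repeat; there are few steps.
-/

set_option autoImplicit false

namespace Pool.Agent.Results.MP_120218_co.EnergyTrichotomy

theorem result (k : ℕ) (hk : 2 ≤ k) (ε b : ℝ) (hε : 0 < ε) (hb : 0 < b) :
    ∃ M : ℕ, 1 ≤ M ∧ ∃ C : ℝ, 0 < C ∧ ∀ A : Finset ℤ, (0 : ℤ) ∉ A →
      ∃ A₀ A₁ A₂ : Finset ℤ, A₀ ∪ A₁ ∪ A₂ = A ∧ Disjoint A₀ A₁ ∧ Disjoint A₀ A₂ ∧
        Disjoint A₁ A₂ ∧
      (∀ m : ℕ, M ≤ m →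
        ((((Fintype.piFinset fun _ : Fin m => A₀) ×ˢ
          (Fintype.piFinset fun _ : Fin m => A₀)).filter
            fun p => ∑ i, p.1 i = ∑ i, p.2 i).card : ℝ) ≤ (A.card : ℝ) ^ (2 * (m : ℝ) - b) ∧
        ((((Fintype.piFinset fun _ : Fin m => A₀) ×ˢ
          (Fintype.piFinset fun _ : Fin m => A₀)).filter
            fun p => ∏ i, p.1 i = ∏ i, p.2 i).card : ℝ) ≤ (A.card : ℝ) ^ (2 * (m : ℝ) - b)) ∧
      (∀ u : ℤ, (((Fintype.piFinset fun _ : Fin k => A₁).filter
          fun f => ∏ i, f i = u).card : ℝ) ≤ C * (A.card : ℝ) ^ ε) ∧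
      (∀ c : ℤ → ℂ, ∫ x in (0:ℝ)..1,
        ‖∑ m ∈ A₂, c m * Complex.exp (2 * Real.pi * Complex.I * m * x)‖ ^ (2 * k) ≤
          (C * (A.card : ℝ) ^ ε * ∑ m ∈ A₂, ‖c m‖ ^ 2) ^ k) ∧
      (∀ X : Fin k → Finset ℤ, (∀ i, X i ⊆ A₂) → ∀ l : Fin k → ℤ, (∀ i, l i ≠ 0) →
        ∏ i, ((X i).card : ℝ) ≤ (C * (A.card : ℝ) ^ ε) ^ k *
          (((Fintype.piFinset X).image fun f => ∑ i, l i * f i).card : ℝ)) :=
  Pool.Agent.L5helper30.LD.trichotomy k hk ε b hε hb

end Pool.Agent.Results.MP_120218_co.EnergyTrichotomy
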