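import Mathlib
import Pool.Agent.L5helper37.PF.Colour

/-!
# The Erdős–Szemerédi conjecture for sets of integers with at most `η log |A|` popular primes

Call a prime `p` `L`-popular for a finite set `B` of integers if for every `e` the exponent of `p`
is different from `e` for more than `|B| / L` nonzero elements of `B`.

Main theorem. For every `k` and `ε` there are `L`, `η`, `c` such that
`max (|kA|, |A ^ (k)|) ≥ c |B| ^ (k - ε)` for all finite sets `B ⊆ A` of integers for which
at most `η log |B|` primes are `L`-popular.

Consequence. For every `k`, `r` and `ε` there are `κ`, `η` such that for every `D` there is `c` with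
`max (|kA|, |A ^ (k)|) ≥ c |A| ^ (k - ε)` for all coloured sets `A` such that the `r`-tuples of elements of
one colour have, with probability at least `1 - κ`, a greatest common divisor which is the product of
an integer which is at most `|A| ^ D` and an integer with at most `η log |A|` prime divisors.

The proof. The key is a bound for sums (`long_fibres`): let `P` be a set of at most `η log |A|` primes such
that for every element of `A` at least `|A| ^ γ` elements of `A` have the same sign and the same
exponents of all the primes outside `P`. Then `|kA + B| ≥ c (|A| ^ k |B|) ^ (1 - ε)` for every `B`.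
The loss `log |A| + log |B| - log |A + B|` is bounded by the average over the pairs
`(a, b)` of the logarithm of the number of the representations of `a + b`. Given the sum, the
exponents in `a` of the primes in `P` are revealed one by one at a small relative cost (`Val`).
Let `t` be the `P`-part of `a`. The digits of `a / t` and of `b` in the bases `p` in `P` are then
revealed at a small relative cost, with the exponent of `p` in `t` as the shift between the
digits of `a / t` and of `b` (`StepD2`, `Stage`). If all the digits at some prime are almost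
determined together, then `a / t` is determined. Otherwise for every prime in `P` there is a pair of
positions at which neither the digit of `a / t` nor that of `b` is almost determined, and for given
`a / t` and `b` this happens for few of the `t` only: the number of the possible shifts is bounded
by a geometric sum (`CountBad`).
-/

set_option autoImplicit false

namespace Pool.Agent.Results.MP_120218_co.LinearlyManyPopularPrimes

open scoped Pointwise
open Pool.Agent.L5helper37.PF

open Classical in
theorem result :
    (∀ k : ℕ, 1 ≤ k → ∀ ε : ℝ, 0 < ε → ∃ L η c : ℝ, 1 ≤ L ∧ 0 < η ∧ 0 < c ∧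
      ∀ (A B : Finset ℤ) (P : Finset ℕ), B ⊆ A → B.Nonempty → (∀ p ∈ P, p.Prime) →
      (P.card : ℝ) ≤ η * Real.log B.card →
      (∀ p : ℕ, p.Prime → p ∉ P → ∃ e : ℕ,
        L * ((B.filter fun b => b ≠ 0 ∧ b.natAbs.factorization p ≠ e).card : ℝ) ≤ B.card) →
      c * (B.card : ℝ) ^ ((k : ℝ) - ε) ≤
        max (((Fintype.piFinset fun _ : Fin k => A).image fun f => ∑ i, f i).card : ℝ)
          (((Fintype.piFinset fun _ : Fin k => A).image fun f => ∏ i, f i).card : ℝ)) ∧
    (∀ k r : ℕ, 1 ≤ k → 1 ≤ r → ∀ ε : ℝ, 0 < ε → ε ≤ 1 → ∃ κ η : ℝ, 0 < κ ∧ 0 < η ∧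
      ∀ D : ℝ, ∃ c : ℝ, 0 < c ∧ ∀ (ι : Type) (A : Finset ℤ) (col : ℤ → ι), A.Nonempty →
      (0 : ℤ) ∉ A →
      ∑ a ∈ A, (((Fintype.piFinset fun _ : Fin r => A.filter fun x => col x = col a).filter
        fun f => ¬ ∃ g₁ g₂ : ℕ, (Finset.univ.gcd fun i => (f i).natAbs) = g₁ * g₂ ∧
          (g₁ : ℝ) ≤ (A.card : ℝ) ^ D ∧
          (g₂.primeFactors.card : ℝ) ≤ η * Real.log A.card).card : ℝ) /
        ((A.filter fun x => col x = col a).card : ℝ) ^ r ≤ κ * A.card →
      c * (A.card : ℝ) ^ ((k : ℝ) - ε) ≤
        max (((Fintype.piFinset fun _ : Fin k => A).image fun f => ∑ i, f i).card : ℝ)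
          (((Fintype.piFinset fun _ : Fin k => A).image fun f => ∏ i, f i).card : ℝ)) := by
  refine ⟨?_, ?_⟩
  · intro k hk ε hε
    obtain ⟨L, η, c, hL, hη, hc, h⟩ := dich k hk (min ε 1) (lt_min hε one_pos)
      (min_le_right _ _)
    refine ⟨L, η, c, hL, hη, hc, fun A B P hBA hB hP hPc hpop => ?_⟩
    have h1 := h A B P hBA hB hP hPc hpop
    unfold Pool.Agent.Y359.PE.sk Pool.Agent.Y359.PE.pk at h1
    refine le_trans ?_ h1
    refine mul_le_mul_of_nonneg_left ?_ hc.le
    refine Real.rpow_le_rpow_of_exponent_le ?_ ?_
    · exact_mod_cast Finset.card_pos.2 hB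
    · have := min_le_left ε 1
      linarith
  · intro k r hk hr ε hε hε1
    obtain ⟨κ, η, hκ, -, hη, h⟩ := colour k hk r hr ε hε hε1
    refine ⟨κ, η, hκ, hη, fun D => ?_⟩
    obtain ⟨c, hc, h⟩ := h D
    refine ⟨c, hc, fun ι A col hA h0 hbad => ?_⟩
    exact h ι A col hA h0 hbad

end Pool.Agent.Results.MP_120218_co.LinearlyManyPopularPrimes
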