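import Mathlib
import Pool.Agent.L5helper37.GC.Cor

/-!
# The Erdős–Szemerédi conjecture for sets with small common divisors

`A ^ k` denotes the set of the products of `k` elements of `A`. All constants depend only on the
parameters in front of them.

Main theorem. For all `k`, `ε` there is `τ > 0` such that for every `C` there is `c > 0` with: let every
element `a` of `A` have a divisor `g a` such that the mean of `log |g a|` is at most `C log |A|` and every
prime divides `a / g a` for at most `τ |A|` elements `a`. Then `|A ^ k| ≥ c |A| ^ (k - ε)`.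

Consequence. For all `k`, `r`, `ε` there is `κ > 0` such that for every `D` there is `c > 0` with: let `A` be
coloured, let `a` be uniformly random in `A` and `f` a uniformly random `r`-tuple of elements of the
colour of `a`. If the greatest common divisor of `f` exceeds `|A| ^ D` with probability at most
`κ` then `|A ^ k| ≥ c |A| ^ (k - ε)`. With one colour: if `|A ^ k| < c |A| ^ (k - ε)` then more than
`κ |A| ^ r` of the `r`-tuples of elements of `A` have a common divisor larger than `|A| ^ D`,
where `κ` does not depend on `D`. (The starting result `KFoldShortProgressions` is the case of at most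
`|A| ^ (1 / 2)` colours, `r = 2` and no two distinct elements of one colour with a large common divisor.)

Proof. Call a prime popular if its power in `g a` is at least a large constant `m` for at least
`δ |A|` elements. There are at most `η log |A|` popular primes, `η = C / (δ log m)`, and for most `a`
the sum of their exponents in `g a` is at most `C' log |A|`; so the vectors of these exponents take
at most `|A| ^ ε'` values. After removing these powers no prime is popular, and the entropy argument
of the starting library `Y359.PE` applies. For the consequence let `g a` consist of the prime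
powers which are minimum of the power in `a` and the largest power of the prime that divides a positive
proportion of the elements of the colour of `a`. Further consequences (few colours, few short pieces
of values of primitive polynomials, polynomials on clustered sets, shifts) are in the library
`L5helper37.GC`.
-/

set_option autoImplicit false

namespace Pool.Agent.Results.MP_120218_co.SmallCommonDivisors

open Finset Pool.Agent.Y359.PE Pool.Agent.R849.SV Pool.Agent.L5helper37.GC

open Classical in
theorem result :
    (∀ k : ℕ, 1 ≤ k → ∀ ε : ℝ, 0 < ε → ε ≤ 1 → ∃ τ : ℝ, 0 < τ ∧ ∀ C : ℝ, ∃ c : ℝ, 0 < c ∧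
      ∀ A : Finset ℤ, A.Nonempty → (0 : ℤ) ∉ A → ∀ g : ℤ → ℤ, (∀ a ∈ A, g a ∣ a) →
      ∑ a ∈ A, Real.log |(g a : ℝ)| ≤ C * A.card * Real.log A.card →
      (∀ p : ℕ, p.Prime → ((A.filter fun a => (p : ℤ) ∣ a / g a).card : ℝ) ≤ τ * A.card) →
      c * (A.card : ℝ) ^ ((k : ℝ) - ε) ≤
        (((Fintype.piFinset fun _ : Fin k => A).image fun f => ∏ i, f i).card : ℝ)) ∧
    (∀ k : ℕ, 1 ≤ k → ∀ r : ℕ, 1 ≤ r → ∀ ε : ℝ, 0 < ε → ε ≤ 1 → ∃ κ : ℝ, 0 < κ ∧ ∀ D : ℝ,
      ∃ c : ℝ, 0 < c ∧ ∀ (ι : Type) (A : Finset ℤ) (col : ℤ → ι), A.Nonempty → (0 : ℤ) ∉ A →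
      ∑ a ∈ A, (((Fintype.piFinset fun _ : Fin r => A.filter fun x => col x = col a).filter
          fun f => (A.card : ℝ) ^ D < ((univ.gcd fun i => (f i).natAbs : ℕ) : ℝ)).card : ℝ) /
        ((A.filter fun x => col x = col a).card : ℝ) ^ r ≤ κ * A.card →
      c * (A.card : ℝ) ^ ((k : ℝ) - ε) ≤
        (((Fintype.piFinset fun _ : Fin k => A).image fun f => ∏ i, f i).card : ℝ)) := by
  refine ⟨?_, ?_⟩
  · intro k hk ε hε hε1
    obtain ⟨τ, hτ, -, h⟩ := small k hk ε hε hε1
    refine ⟨τ, hτ, fun C => ?_⟩
    obtain ⟨c, hc, h⟩ := h C
    refine ⟨c, hc, fun A hA h0 g hg hsum hp => ?_⟩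
    have hne : ∀ a ∈ A, a ≠ 0 := fun a ha h => h0 (h ▸ ha)
    have hgne : ∀ a ∈ A, g a ≠ 0 := by
      intro a ha h1
      have h2 := hg a ha
      rw [h1, zero_dvd_iff] at h2
      exact hne a ha h2
    refine h A hA h0 (fun a => (g a).natAbs) (fun a ha => Int.natAbs_ne_zero.2 (hgne a ha)) ?_ ?_
    · refine le_trans (le_of_eq ?_) hsum
      refine sum_congr rfl fun a _ => ?_
      rw [Nat.cast_natAbs, Int.cast_abs]
    · intro p hpp
      refine le_trans ?_ (hp p hpp)
      have h1 : (A.filter fun a => fa a p ≠ ((g a).natAbs).factorization p) ⊆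
          A.filter fun a => (p : ℤ) ∣ a / g a := by
        intro a ha
        rw [mem_filter] at ha ⊢
        refine ⟨ha.1, ?_⟩
        obtain ⟨q, hq⟩ := hg a ha.1
        have hg0 := hgne a ha.1
        have hq0 : q ≠ 0 := by
          rintro rfl
          exact hne a ha.1 (by rw [hq, mul_zero])
        have h2 : a / g a = q := Int.ediv_eq_of_eq_mul_right hg0 hq
        rw [h2]
        have h3 : fa a p = (g a).natAbs.factorization p + fa q p := by
          have h5 := fa_mul hg0 hq0 p
          rw [← hq] at h5
          exact h5
        have h4 : fa q p ≠ 0 := by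
          intro h5
          exact ha.2 (by rw [h3, h5, add_zero])
        rw [Int.natCast_dvd]
        unfold fa at h4
        exact Nat.dvd_of_factorization_pos h4
      exact_mod_cast card_le_card h1
  · intro k hk r hr ε hε hε1
    obtain ⟨κ, hκ, -, h⟩ := gcd_avg k hk r hr ε hε hε1
    refine ⟨κ, hκ, fun D => ?_⟩
    obtain ⟨c, hc, h⟩ := h D
    exact ⟨c, hc, fun ι A col hA h0 hb => h ι A col hA h0 hb⟩

end Pool.Agent.Results.MP_120218_co.SmallCommonDivisors
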