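import Mathlib
import Pool.Agent.L5helper30.HC.Main

/-!
# The `k`-fold product set of a union of sums of many sets

Let `A` be the union over `j ∈ J` of the sumsets `B j 0 + … + B j (n j - 1)` of finite nonempty sets
of integers, and suppose that for every prime power `q > m` which divides an element of the `j`-th
sumset the sets `B j i` are together not too concentrated modulo `q`: the sum over `i` of the
probability that two independent elements of `B j i` are incongruent modulo `q` is at least
`L = L(k, ε)`. Then the set of the `k`-fold products of `A` has at least `c (N² / E) ^ (k - ε)`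
elements, `c = c(k, ε, m)`, where `N` is the number of the representations and `E` the number of the
pairs of representations with the same sum; so `N² / E` is the Cauchy-Schwarz lower bound for `|A|`.

Special cases: a Hilbert cube `x₀ + {0, x₁} + … + {0, x_d}` with `2 ^ d` distinct elements such that
no prime power `q > m` divides all but fewer than `2 L` of the generators has at least
`c |A| ^ (k - ε)` `k`-fold products (its `k`-fold sumset has at most `|A| ^ log₂ (k + 1)` elements);
`|(nB) ^ k| ≥ c (|B| ^ (2n) / E_n(B)) ^ (k - ε)` for `n ≥ L / η` if no residue class modulo a prime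
power `q > m` contains more than `(1 - η) |B|` elements of `B`; unions of long progressions.

Proof. The entropy method of the starting library (`Y359.PE`, `R849.SV`) is carried over from sets to
random integers. A bound of Littlewood-Offord type modulo a prime power (characters, Jensen's
inequality, and the case of one generator) shows that few sums are divisible by a large prime power.
-/

set_option autoImplicit false

namespace Pool.Agent.Results.MP_120218_co.SumsOfManySets

theorem result (k : ℕ) (hk : 1 ≤ k) (ε : ℝ) (hε : 0 < ε) (hε1 : ε ≤ 1) :
    ∃ L : ℕ, ∀ m : ℕ, ∃ c : ℝ, 0 < c ∧ ∀ (ι : Type) (J : Finset ι) (n : ι → ℕ)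
      (B : (j : ι) → Fin (n j) → Finset ℤ), J.Nonempty → (∀ j ∈ J, ∀ i, (B j i).Nonempty) →
      (∀ j ∈ J, ∀ q : ℕ, IsPrimePow q → m < q →
        (∃ b ∈ Fintype.piFinset (B j), (q : ℤ) ∣ ∑ i, b i) →
        (L : ℝ) ≤ ∑ i, (((B j i ×ˢ B j i).filter fun x => ¬ (q : ℤ) ∣ x.1 - x.2).card : ℝ) /
          ((B j i).card : ℝ) ^ 2) →
      c * ((∑ j ∈ J, ∏ i, ((B j i).card : ℝ)) ^ 2 /
        ((((J.sigma fun j => Fintype.piFinset (B j)) ×ˢ
          (J.sigma fun j => Fintype.piFinset (B j))).filter
            fun x => ∑ i, x.1.2 i = ∑ i, x.2.2 i).card : ℝ)) ^ ((k : ℝ) - ε) ≤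
      (((Fintype.piFinset fun _ : Fin k => J.biUnion fun j =>
        (Fintype.piFinset (B j)).image fun b => ∑ i, b i).image fun f => ∏ i, f i).card : ℝ) :=
  Pool.Agent.L5helper30.HC.sums k hk ε hε hε1

end Pool.Agent.Results.MP_120218_co.SumsOfManySets
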